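import Mathlib

set_option autoImplicit false

/-!
# An eulerian 2-edge-coloured graph without a majority 3-partition

A block is attached to 18 vertices `f 0, …, f 17` of a base set of 54 vertices.  It consists of five
vertices `b j` (joined in red to the 18 vertices), of three vertices `c l i` for each of the ten
triples `l` of the `b j` and of a gadget of four vertices `d l g` for each triple `l`.  All vertices
of the block have equal red and blue degrees.  If the 18 vertices lie in one part then the block has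
no majority 3-partition.  For every injection `f` there are two blocks, one of them with the colours
exchanged, so the vertices of the base set have equal red and blue degrees as well.
-/

namespace Pool.Agent.Results.MP_ec2f19_co.Eulerian

open Finset

/-- `p : V → Fin 3` is a majority 3-partition of the 2-edge-coloured graph with red graph `R` and
blue graph `B` if in each colour every vertex has at least as many neighbours in the other parts as
in its own part. -/
def IsMajority {V : Type} (R B : SimpleGraph V) (p : V → Fin 3) : Prop :=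
  ∀ v, {w | R.Adj v w ∧ p w = p v}.ncard ≤ {w | R.Adj v w ∧ p w ≠ p v}.ncard ∧
    {w | B.Adj v w ∧ p w = p v}.ncard ≤ {w | B.Adj v w ∧ p w ≠ p v}.ncard

/-- The vertices of a block: `b j`, `c l i` and `d l g`. -/
abbrev U : Type := Fin 5 ⊕ (Fin 10 × Fin 3) ⊕ (Fin 10 × Fin 4)

/-- The vertices of a block together with the 18 vertices to which it is attached. -/
abbrev D : Type := Fin 18 ⊕ U

/-- The ten triples of elements of `Fin 5`. -/
def tri (l : Fin 10) (j : Fin 5) : Bool :=
  ([7, 11, 13, 14, 19, 21, 22, 25, 26, 28].getD l 0 : ℕ).testBit j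

/-- Red edges, from the upper to the lower vertex. -/
def hr : D → D → Bool
  | .inr (.inl _), .inl _ => true
  | .inr (.inr (.inl _)), .inl x => decide (x < 3)
  | .inr (.inr (.inr (_, g))), .inl x => (g == 0 && decide (x < 5)) || (g == 1 && decide (x < 9))
  | .inr (.inr (.inr (l, g))), .inr (.inl j) => (g == 2 || g == 3) && tri l j
  | .inr (.inr (.inr (l, g))), .inr (.inr (.inl (l', _))) => (g == 2 || g == 3) && l == l'
  | .inr (.inr (.inr (l, g))), .inr (.inr (.inr (l', g'))) => l == l' && g == 0 && (g' == 2 || g' == 3)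
  | _, _ => false

/-- Blue edges, from the upper to the lower vertex. -/
def hb : D → D → Bool
  | .inr (.inr (.inl (l, _))), .inr (.inl j) => tri l j
  | .inr (.inr (.inr (_, g))), .inl x => (g == 2 || g == 3) && decide (x < 6)
  | .inr (.inr (.inr (l, g))), .inr (.inl j) => (g == 0 || g == 1) && tri l j
  | .inr (.inr (.inr (l, g))), .inr (.inr (.inl (l', _))) => (g == 0 || g == 1) && l == l'
  | .inr (.inr (.inr (l, g))), .inr (.inr (.inr (l', g'))) =>
      l == l' && g == 1 && (g' == 0 || g' == 2 || g' == 3)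
  | _, _ => false

/-- The edges of colour `β` in a block (`false` is red). -/
def h (β : Bool) (v w : D) : Bool := bif β then hb v w || hb w v else hr v w || hr w v

lemma h_symm (β : Bool) (v w : D) : h β v w = h β w v := by
  cases β <;> simp [h, Bool.or_comm]

lemma h_irrefl : ∀ (β : Bool) (v : D), h β v v = false := by decide +kernel

lemma h_inl : ∀ (β : Bool) (x y : Fin 18), h β (.inl x) (.inl y) = false := by decide +kernel

lemma h_disj : ∀ (v w : D), (h false v w && h true v w) = false := by decide +kernel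

lemma h_balanced : ∀ u : U, (univ.filter fun w => h false (.inr u) w).card =
    (univ.filter fun w => h true (.inr u) w).card := by decide +kernel

/-! ### The infeasibility of a block -/

/-- `p` is a majority partition at `v` in colour `β`. -/
def Maj (p : D → Fin 3) (β : Bool) (v : D) : Prop :=
  (univ.filter fun w => h β v w = true ∧ p w = p v).card ≤
    (univ.filter fun w => h β v w = true ∧ p w ≠ p v).card

/-- `X` consists of more than half of the neighbours of `v` in colour `β`. -/
def Half (β : Bool) (v : D) (X : Finset D) : Prop :=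
  (∀ w ∈ X, h β v w = true) ∧ (univ.filter fun w => h β v w).card < 2 * X.card

instance (β : Bool) (v : D) (X : Finset D) : Decidable (Half β v X) := by
  unfold Half; infer_instance

lemma force {p : D → Fin 3} {β : Bool} {v : D} {i : Fin 3} (hp : Maj p β v) {X : Finset D}
    (h1 : Half β v X) (h3 : ∀ w ∈ X, p w = i) : p v ≠ i := by
  rintro rfl
  have e1 : (univ.filter fun w => h β v w = true ∧ p w = p v).card +
      (univ.filter fun w => h β v w = true ∧ p w ≠ p v).card =
      (univ.filter fun w => h β v w = true).card := by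
    rw [← Finset.filter_filter, ← Finset.filter_filter]
    exact Finset.card_filter_add_card_filter_not _
  have e2 : X.card ≤ (univ.filter fun w => h β v w = true ∧ p w = p v).card :=
    Finset.card_le_card fun w hw => by simp [h1.1 w hw, h3 w hw]
  have e3 := h1.2
  unfold Maj at hp
  omega

/-- The 18 vertices. -/
abbrev vI (x : Fin 18) : D := .inl x

/-- Level `B`. -/
abbrev vb (j : Fin 5) : D := .inr (.inl j)

/-- Level `C`. -/
abbrev vc (l : Fin 10) (i : Fin 3) : D := .inr (.inr (.inl (l, i)))

/-- Level `D`. -/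
abbrev vd (l : Fin 10) (g : Fin 4) : D := .inr (.inr (.inr (l, g)))

/-- The first `s` of the 18 vertices. -/
def sI (s : ℕ) : Finset D := (univ.filter fun x : Fin 18 => x.1 < s).image vI

/-- The three vertices `b j` of a triple (`false`) and the three vertices `c l i` (`true`). -/
def sbc (l : Fin 10) (t : Bool) : Finset D :=
  bif t then univ.image (vc l) else (univ.filter fun j => tri l j = true).image vb

lemma cB : ∀ j, Half false (vb j) (sI 18) := by decide +kernel

lemma cC1 : ∀ l i, Half false (vc l i) (sI 3) := by decide +kernel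

lemma cC2 : ∀ l i, Half true (vc l i) (sbc l false) := by decide +kernel

lemma cD0 : ∀ l, Half false (vd l 0) (sI 5) := by decide +kernel

lemma cD1 : ∀ l, Half false (vd l 1) (sI 9) := by decide +kernel

lemma cD2 : ∀ l, Half true (vd l 2) (sI 6) := by decide +kernel

lemma cD3 : ∀ l, Half true (vd l 3) (sI 6) := by decide +kernel

lemma cD01 : ∀ l t, Half true (vd l 0) (insert (vd l 1) (sbc l t)) := by decide +kernel

lemma cD20 : ∀ l t, Half false (vd l 2) (insert (vd l 0) (sbc l t)) := by decide +kernel

lemma cD30 : ∀ l t, Half false (vd l 3) (insert (vd l 0) (sbc l t)) := by decide +kernel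

lemma cDf : ∀ l t, Half true (vd l 1) (insert (vd l 2) (insert (vd l 3) (sbc l t))) := by
  decide +kernel

lemma exists_tri : ∀ (i₁ : Fin 3) (q : Fin 5 → Fin 3), (∀ j, q j ≠ i₁) →
    ∃ i₂, i₂ ≠ i₁ ∧ ∃ l, ∀ j, tri l j = true → q j = i₂ := by decide +kernel

lemma third : ∀ i₁ i₂ : Fin 3, i₂ ≠ i₁ →
    ∃ i₃ : Fin 3, ∀ i, i ≠ i₁ → i ≠ i₂ → i = i₃ := by decide

lemma key (i p₀ p₁ p₂ : Fin 3) (h0 : p₀ ≠ i) (h1 : p₁ ≠ i) (h2 : p₂ ≠ i) (h01 : p₁ ≠ p₀)
    (h20 : p₀ ≠ p₂) : p₂ = p₁ := by omega

/-- A block has no majority 3-partition in which the 18 vertices lie in one part. -/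
lemma block (p : D → Fin 3) (i₁ : Fin 3) (hI : ∀ x, p (vI x) = i₁)
    (hp : ∀ β u, Maj p β (.inr u)) : False := by
  have pI : ∀ s, ∀ w ∈ sI s, p w = i₁ := by
    intro s w hw
    obtain ⟨x, -, rfl⟩ := Finset.mem_image.1 hw
    exact hI x
  obtain ⟨i₂, hi₂, l, hl⟩ := exists_tri i₁ (fun j => p (vb j))
    (fun j => force (hp false _) (cB j) (pI 18))
  obtain ⟨i₃, hi₃⟩ := third i₁ i₂ hi₂
  have hb : ∀ w ∈ sbc l false, p w = i₂ := by
    intro w hw
    obtain ⟨j, hj, rfl⟩ := Finset.mem_image.1 hw
    exact hl j (Finset.mem_filter.1 hj).2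
  have hc : ∀ w ∈ sbc l true, p w = i₃ := by
    intro w hw
    obtain ⟨j, -, rfl⟩ := Finset.mem_image.1 hw
    exact hi₃ _ (force (hp false _) (cC1 l j) (pI 3)) (force (hp true _) (cC2 l j) hb)
  have hbc : ∀ i, i ≠ i₁ → ∃ t, ∀ w ∈ sbc l t, p w = i := by
    intro i hi
    by_cases e : i = i₂
    · exact ⟨false, e ▸ hb⟩
    · exact ⟨true, hi₃ i hi e ▸ hc⟩
  have h0 : p (vd l 0) ≠ i₁ := force (hp false _) (cD0 l) (pI 5)
  have h1 : p (vd l 1) ≠ i₁ := force (hp false _) (cD1 l) (pI 9)
  have h2 : p (vd l 2) ≠ i₁ := force (hp true _) (cD2 l) (pI 6)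
  have h3 : p (vd l 3) ≠ i₁ := force (hp true _) (cD3 l) (pI 6)
  have h01 : p (vd l 1) ≠ p (vd l 0) := by
    intro e
    obtain ⟨t, ht⟩ := hbc _ h0
    refine force (hp true _) (cD01 l t) ?_ rfl
    intro w hw
    rcases Finset.mem_insert.1 hw with rfl | hw
    · exact e
    · exact ht w hw
  have h20 : p (vd l 0) ≠ p (vd l 2) := by
    intro e
    obtain ⟨t, ht⟩ := hbc _ h2
    refine force (hp false _) (cD20 l t) ?_ rfl
    intro w hw
    rcases Finset.mem_insert.1 hw with rfl | hw
    · exact e
    · exact ht w hw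
  have h30 : p (vd l 0) ≠ p (vd l 3) := by
    intro e
    obtain ⟨t, ht⟩ := hbc _ h3
    refine force (hp false _) (cD30 l t) ?_ rfl
    intro w hw
    rcases Finset.mem_insert.1 hw with rfl | hw
    · exact e
    · exact ht w hw
  obtain ⟨t, ht⟩ := hbc _ h1
  refine force (hp true _) (cDf l t) ?_ rfl
  intro w hw
  rcases Finset.mem_insert.1 hw with rfl | hw
  · exact key _ _ _ _ h0 h1 h2 h01 h20
  · rcases Finset.mem_insert.1 hw with rfl | hw
    · exact key _ _ _ _ h0 h1 h3 h01 h30
    · exact ht w hw

/-! ### The graph -/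

/-- The vertices: the base set of 54 vertices and two blocks for every injection `f`. -/
abbrev V : Type := Fin 54 ⊕ ((Fin 18 ↪ Fin 54) × Bool × U)

/-- The embedding of a block together with its 18 vertices. -/
def emb (f : Fin 18 ↪ Fin 54) (γ : Bool) : D → V
  | .inl x => .inl (f x)
  | .inr u => .inr (f, γ, u)

lemma emb_injective (f : Fin 18 ↪ Fin 54) (γ : Bool) : Function.Injective (emb f γ) := by
  intro v w e
  cases v <;> cases w <;> simp_all [emb]

/-- The graph of the edges of colour `β` (`false` is red); in the block `(f, γ)` the colours are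
exchanged if `γ` is `true`. -/
def G (β : Bool) : SimpleGraph V where
  Adj v w := ∃ f γ x y, emb f γ x = v ∧ emb f γ y = w ∧ h (xor β γ) x y = true
  symm := ⟨by
    rintro v w ⟨f, γ, x, y, rfl, rfl, e⟩
    exact ⟨f, γ, y, x, rfl, rfl, by rwa [h_symm]⟩⟩
  loopless := ⟨by
    rintro v ⟨f, γ, x, y, rfl, e', e⟩
    rw [emb_injective f γ e', h_irrefl] at e
    cases e⟩

lemma adj_inr {β : Bool} {f : Fin 18 ↪ Fin 54} {γ : Bool} {u : U} {w : V} :
    (G β).Adj (.inr (f, γ, u)) w ↔ ∃ y, emb f γ y = w ∧ h (xor β γ) (.inr u) y = true := by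
  constructor
  · rintro ⟨f', γ', x, y, hx, rfl, e⟩
    cases x with
    | inl x => cases hx
    | inr x =>
      cases hx
      exact ⟨y, rfl, e⟩
  · rintro ⟨y, rfl, e⟩
    exact ⟨f, γ, _, y, rfl, rfl, e⟩

lemma disj : Disjoint (G false) (G true) := by
  rw [disjoint_iff]
  ext v w
  simp only [SimpleGraph.inf_adj, SimpleGraph.bot_adj, iff_false, not_and]
  have key : ∀ (f : Fin 18 ↪ Fin 54) (γ : Bool) (u : U) (w : V),
      (G false).Adj (.inr (f, γ, u)) w → (G true).Adj (.inr (f, γ, u)) w → False := by
    intro f γ u w h1 h2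
    rw [adj_inr] at h1 h2
    obtain ⟨y, hy, h1⟩ := h1
    obtain ⟨z, hz, h2⟩ := h2
    obtain rfl := emb_injective f γ (hy.trans hz.symm)
    have := h_disj (.inr u) y
    cases γ <;> simp_all
  intro h1 h2
  cases v with
  | inr v => exact key _ _ _ _ h1 h2
  | inl v =>
    cases w with
    | inr w => exact key _ _ _ _ h1.symm h2.symm
    | inl w =>
      obtain ⟨f, γ, x, y, hx, hy, e⟩ := h1
      cases x with
      | inr x => cases hx
      | inl x =>
        cases y with
        | inr y => cases hy
        | inl y =>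
          rw [h_inl] at e
          cases e

lemma ncard_inr (β : Bool) (f : Fin 18 ↪ Fin 54) (γ : Bool) (u : U) (P : V → Prop)
    [DecidablePred P] :
    {w | (G β).Adj (.inr (f, γ, u)) w ∧ P w}.ncard =
      (univ.filter fun y => h (xor β γ) (.inr u) y = true ∧ P (emb f γ y)).card := by
  have e : {w | (G β).Adj (.inr (f, γ, u)) w ∧ P w} =
      emb f γ '' ((univ.filter fun y => h (xor β γ) (.inr u) y = true ∧ P (emb f γ y) :
        Finset D) : Set D) := by
    ext w
    simp only [Set.mem_ofPred_eq, Set.mem_image, Finset.coe_filter, Finset.mem_univ, true_and]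
    rw [adj_inr]
    constructor
    · rintro ⟨⟨y, rfl, hy⟩, hP⟩
      exact ⟨y, ⟨hy, hP⟩, rfl⟩
    · rintro ⟨y, ⟨hy, hP⟩, rfl⟩
      exact ⟨⟨y, rfl, hy⟩, hP⟩
  rw [e, Set.ncard_image_of_injective _ (emb_injective f γ), Set.ncard_coe_finset]

/-- The exchange of the two blocks of every injection. -/
def σ : V → V
  | .inl x => .inl x
  | .inr (f, γ, u) => .inr (f, !γ, u)

lemma σ_emb (f : Fin 18 ↪ Fin 54) (γ : Bool) (x : D) : σ (emb f γ x) = emb f (!γ) x := by
  cases x <;> rfl

lemma σ_σ (v : V) : σ (σ v) = v := by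
  rcases v with v | ⟨f, γ, u⟩
  · rfl
  · simp [σ]

lemma adj_σ {β : Bool} {v w : V} (e : (G β).Adj v w) : (G (!β)).Adj (σ v) (σ w) := by
  obtain ⟨f, γ, x, y, rfl, rfl, e⟩ := e
  exact ⟨f, !γ, x, y, (σ_emb f γ x).symm, (σ_emb f γ y).symm, by simpa using e⟩

/-- Every vertex has equal red and blue degrees. -/
lemma eulerian (v : V) : {w | (G false).Adj v w}.ncard = {w | (G true).Adj v w}.ncard := by
  rcases v with v | ⟨f, γ, u⟩
  · have e : {w | (G true).Adj (.inl v) w} = σ '' {w | (G false).Adj (.inl v) w} := by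
      ext w
      constructor
      · intro hw
        exact ⟨σ w, adj_σ hw, σ_σ w⟩
      · rintro ⟨w, hw, rfl⟩
        exact adj_σ (β := false) hw
    rw [e, Set.ncard_image_of_injective]
    intro x y hxy
    rw [← σ_σ x, hxy, σ_σ]
  · have e := fun β => ncard_inr β f γ u (fun _ => True)
    simp only [and_true] at e
    rw [e, e]
    cases γ
    · exact h_balanced u
    · exact (h_balanced u).symm

lemma main (p : V → Fin 3) : ¬ IsMajority (G false) (G true) p := by
  intro hp
  obtain ⟨i₁, -, hi⟩ := Finset.exists_le_card_fiber_of_mul_le_card_of_maps_to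
    (s := (Finset.univ : Finset (Fin 54))) (t := (Finset.univ : Finset (Fin 3)))
    (f := fun x => p (.inl x)) (fun x _ => Finset.mem_univ _) Finset.univ_nonempty
    (n := 18) (by simp)
  obtain ⟨K, hK, hKc⟩ := Finset.exists_subset_card_eq hi
  obtain ⟨f, hf⟩ : ∃ f : Fin 18 ↪ Fin 54, ∀ x, f x ∈ K :=
    ⟨(K.orderEmbOfFin hKc).toEmbedding, fun x => Finset.orderEmbOfFin_mem K hKc x⟩
  refine block (fun x => p (emb f false x)) i₁ (fun x => ?_) (fun β u => ?_)
  · exact (Finset.mem_filter.1 (hK (hf x))).2
  · have h1 := hp (.inr (f, false, u))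
    rw [ncard_inr, ncard_inr, ncard_inr, ncard_inr] at h1
    unfold Maj
    cases β
    · exact h1.1
    · exact h1.2

/-- There is a finite 2-edge-coloured graph, with red graph `R` and blue graph `B`, which is
eulerian (every vertex has red degree equal to its blue degree) and has no majority
3-partition. -/
theorem result : ∃ (V : Type) (_ : Finite V) (R B : SimpleGraph V), Disjoint R B ∧
    (∀ v, {w | R.Adj v w}.ncard = {w | B.Adj v w}.ncard) ∧
    ∀ p : V → Fin 3, ¬ IsMajority R B p :=
  ⟨V, inferInstance, G false, G true, disj, eulerian, main⟩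

end Pool.Agent.Results.MP_ec2f19_co.Eulerian
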